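import Pool.Agent.Lib.MP_3e612f_nt.DI.Av

/-!
Conditioning: if the average of `F` over every class of contents `{c | ∀ v, ρ (c v) = τ v}` has norm at
most `B`, then so has the average of `F`.
-/

set_option autoImplicit false

namespace Pool.Agent.Lib.MP_3e612f_nt.DI

open Finset

theorem cond_av {X Y : Type} [Fintype X] [DecidableEq Y] (g : X → Y) (F : X → ℂ) {B : ℝ} (hB : 0 ≤ B)
    (h : ∀ x0, ‖∑ x with g x = g x0, F x‖ ≤ B * (#{x | g x = g x0} : ℕ)) : ‖av F‖ ≤ B := by
  classical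
  have h1 : ∑ x, F x = ∑ y ∈ univ.image g, ∑ x with g x = y, F x :=
    (sum_fiberwise_of_maps_to (fun x _ => mem_image_of_mem g (mem_univ x)) F).symm
  have h2 : Fintype.card X = ∑ y ∈ univ.image g, #{x | g x = y} :=
    card_eq_sum_card_fiberwise fun x _ => mem_coe.2 (mem_image_of_mem g (mem_univ x))
  have h3 : ‖∑ x, F x‖ ≤ B * (Fintype.card X : ℕ) := by
    rw [h1, h2]
    push_cast
    rw [mul_sum]
    refine norm_sum_le_of_le _ fun y hy => ?_
    obtain ⟨x0, -, rfl⟩ := mem_image.1 hy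
    exact h x0
  unfold av
  rw [norm_mul, norm_inv, Complex.norm_natCast]
  rcases Nat.eq_zero_or_pos (Fintype.card X) with h0 | h0
  · rw [h0]
    simpa using hB
  · have h0' : (0 : ℝ) < Fintype.card X := by exact_mod_cast h0
    rw [inv_mul_le_iff₀ h0', mul_comm]
    exact h3

theorem cond_le {A E R : Type} [Fintype A] [DecidableEq A] [Fintype E] [DecidableEq R]
    (ρ : E → R) (F : (A → E) → ℂ) {B : ℝ} (hB : 0 ≤ B)
    (h : ∀ τ : A → R, (∀ v, ∃ κ, ρ κ = τ v) →
      ‖av fun c : (∀ v, {κ : E // ρ κ = τ v}) => F fun v => (c v).1‖ ≤ B) : ‖av F‖ ≤ B := by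
  classical
  refine cond_av (fun c : A → E => fun v => ρ (c v)) F hB fun x0 => ?_
  have h1 := h (fun v => ρ (x0 v)) fun v => ⟨x0 v, rfl⟩
  let e : (∀ v, {κ : E // ρ κ = ρ (x0 v)}) ≃
      {c : A → E // (fun v => ρ (c v)) = fun v => ρ (x0 v)} :=
    { toFun := fun c => ⟨fun v => (c v).1, funext fun v => (c v).2⟩
      invFun := fun c v => ⟨c.1 v, congrFun c.2 v⟩
      left_inv := fun _ => rfl
      right_inv := fun _ => rfl }
  have h2 : ∑ x : A → E with (fun v => ρ (x v)) = fun v => ρ (x0 v), F x =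
      ∑ c : (∀ v, {κ : E // ρ κ = ρ (x0 v)}), F fun v => (c v).1 := by
    refine (sum_bij (fun c _ => fun v => (c v).1) ?_ ?_ ?_ ?_).symm
    · intro c _
      exact mem_filter.2 ⟨mem_univ _, funext fun v => (c v).2⟩
    · intro c _ c' _ hc
      funext v
      exact Subtype.ext (congrFun hc v)
    · intro x hx
      exact ⟨fun v => ⟨x v, congrFun (mem_filter.1 hx).2 v⟩, mem_univ _, rfl⟩
    · intro c _
      rfl
  have h3 : #{x : A → E | (fun v => ρ (x v)) = fun v => ρ (x0 v)} =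
      Fintype.card (∀ v, {κ : E // ρ κ = ρ (x0 v)}) := by
    rw [← Fintype.card_subtype]
    exact (Fintype.card_congr e).symm
  rw [h2, h3]
  have h4 : 0 < Fintype.card (∀ v, {κ : E // ρ κ = ρ (x0 v)}) :=
    Fintype.card_pos_iff.2 ⟨fun v => ⟨x0 v, rfl⟩⟩
  have h4' : (0 : ℝ) < Fintype.card (∀ v, {κ : E // ρ κ = ρ (x0 v)}) := by exact_mod_cast h4
  unfold av at h1
  rw [norm_mul, norm_inv, Complex.norm_natCast, inv_mul_le_iff₀ h4', mul_comm] at h1
  exact h1

end Pool.Agent.Lib.MP_3e612f_nt.DI
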