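import Pool.Agent.Lib.MP_3e612f_nt.DI.Rep

/-!
The average of a phase over the contents of finitely many windows: contents in finite sets `Ω v` which
depend on the window, and a bounded factor which does not see the switches.

See `Rep.lean`; the only differences are the dependent type of the contents `c : ∀ v, Ω v` and the
factor `β`.
-/

set_option autoImplicit false
set_option linter.unusedSectionVars false

namespace Pool.Agent.Lib.MP_3e612f_nt.DI

open Finset
open Pool.Agent.Lib.MP_3e612f_nt.PI (ee)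

/-! ### Averages over products -/

section
variable {A : Type} [Fintype A] [DecidableEq A]

theorem av_pi_prodD {Ω : A → Type} [∀ v, Fintype (Ω v)] (g : ∀ v, Ω v → ℂ) :
    (av fun u : ∀ v, Ω v => ∏ v, g v (u v)) = ∏ v, av (g v) := by
  unfold av
  rw [prod_mul_distrib, prod_univ_sum, Fintype.piFinset_univ, Fintype.card_pi]
  congr 1
  rw [prod_inv_distrib]
  push_cast
  rfl

/-- a product of measure preserving maps preserves averages -/
theorem av_pushD {β Ω : A → Type} [∀ v, Fintype (β v)] [∀ v, Fintype (Ω v)]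
    [∀ v, DecidableEq (Ω v)] (φ : ∀ v, β v → Ω v)
    (hφ : ∀ v x, (av fun y : β v => if φ v y = x then (1 : ℂ) else 0) =
      (Fintype.card (Ω v) : ℂ)⁻¹) (F : (∀ v, Ω v) → ℂ) :
    (av fun h : ∀ v, β v => F fun v => φ v (h v)) = av F := by
  have h1 : ∀ h : ∀ v, β v, F (fun v => φ v (h v)) =
      ∑ c : ∀ v, Ω v, F c * ∏ v, if φ v (h v) = c v then (1 : ℂ) else 0 := by
    intro h
    rw [sum_eq_single fun v => φ v (h v)]
    · simp
    · intro c _ hc
      obtain ⟨v, hv⟩ := Function.ne_iff.1 (Ne.symm hc)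
      rw [prod_eq_zero (mem_univ v) (if_neg hv), mul_zero]
    · exact fun h => absurd (mem_univ _) h
  simp only [h1]
  rw [av_sum]
  have h2 : ∀ c : ∀ v, Ω v, (av fun h : ∀ v, β v =>
      F c * ∏ v, if φ v (h v) = c v then (1 : ℂ) else 0) =
      F c * ∏ v, (Fintype.card (Ω v) : ℂ)⁻¹ := by
    intro c
    rw [av_mul_left, av_pi_prodD fun v y => if φ v y = c v then (1 : ℂ) else 0]
    simp only [hφ]
  simp only [h2]
  rw [← sum_mul]
  unfold av
  rw [Fintype.card_pi, mul_comm, prod_inv_distrib]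
  push_cast
  rfl

theorem av_diagD {C : Type} [Fintype C] [DecidableEq C] {Ω : A → Type} [∀ v, Fintype (Ω v)]
    [∀ v, DecidableEq (Ω v)] [∀ v, Nonempty (Ω v)] (col : A → C) (F : (∀ v, Ω v) → ℂ) :
    (av fun κ : C → ∀ v, Ω v => F fun v => κ (col v) v) = av F := by
  have h1 := av_pushD (A := A) (β := fun v => C → Ω v) (Ω := Ω) (fun v g => g (col v)) (by
    intro v x
    have h2 : ∀ g : C → Ω v, (if g (col v) = x then (1 : ℂ) else 0) =
        ∏ j : C, (if j = col v then (if g j = x then (1 : ℂ) else 0) else 1) := by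
      intro g
      rw [prod_ite_eq']
      simp
    simp only [h2]
    rw [av_pi_prod fun (j : C) (y : Ω v) =>
      if j = col v then (if y = x then (1 : ℂ) else 0) else 1]
    rw [prod_eq_single (col v)]
    · simp only [if_true]
      unfold av
      rw [sum_ite_eq']
      simp
    · intro j _ hj
      simp only [hj, if_false]
      exact av_const _
    · exact fun h => absurd (mem_univ _) h) F
  rw [← h1]
  let e : (C → ∀ v, Ω v) ≃ (∀ v, C → Ω v) :=
    { toFun := fun κ v j => κ j v
      invFun := fun κ j v => κ v j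
      left_inv := fun _ => rfl
      right_inv := fun _ => rfl }
  rw [← av_equiv e]
  rfl

end

/-! ### Switches -/

section
variable {A C : Type} {Ω : A → Type} [∀ v, DecidableEq (Ω v)]

/-- the contents `c`, with the active windows switched by the bits `b` -/
def mixD (col : A → C) (z z' c : ∀ v, Ω v) (b : C → A → Bool) : ∀ v, Ω v := fun v =>
  if c v = z v ∨ c v = z' v then (if b (col v) v then z' v else z v) else c v

/-- the difference of the bits at the active windows -/
def dltD (z z' c : ∀ v, Ω v) (b b' : C → A → Bool) : C → A → ℤ :=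
  fun j v => if c v = z v ∨ c v = z' v then
    (if b j v then 1 else 0) - (if b' j v then 1 else 0) else 0

end

section
variable {A C : Type} [Fintype A] [DecidableEq A] [Fintype C] [DecidableEq C] {M : ℕ} [NeZero M]
  {Ω : A → Type} [∀ v, Fintype (Ω v)] [∀ v, DecidableEq (Ω v)]

theorem RepS_mix (z z' : ∀ v, Ω v) (hz : ∀ v, z v ≠ z' v) (g : (∀ v, Ω v) → ℂ) :
    av g = av fun c : ∀ v, Ω v => av fun b : A → Bool =>
      g fun v => if c v = z v ∨ c v = z' v then (if b v then z' v else z v) else c v := by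
  let J : (∀ v, Ω v) × (A → Bool) → (∀ v, Ω v) × (A → Bool) := fun p =>
    (fun v => if p.1 v = z v ∨ p.1 v = z' v then (if p.2 v then z' v else z v) else p.1 v,
      fun v => if p.1 v = z v ∨ p.1 v = z' v then decide (p.1 v = z' v) else p.2 v)
  have hJ : Function.Involutive J := by
    rintro ⟨c, b⟩
    refine Prod.ext ?_ ?_
    · funext v
      simp only [J]
      by_cases h : c v = z v ∨ c v = z' v
      · simp only [h, if_true]
        rcases h with h | h
        · by_cases hb : b v = true <;> simp [h, hz v, hb]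
        · by_cases hb : b v = true <;> simp [h, hb]
      · simp only [h, if_false]
    · funext v
      simp only [J]
      by_cases h : c v = z v ∨ c v = z' v
      · simp only [h, if_true]
        by_cases hb : b v = true <;> simp [hz v, hb]
      · simp only [h, if_false]
  have h1 : av g = av fun p : (∀ v, Ω v) × (A → Bool) => g p.1 := by
    rw [av_prod]
    congr 1
    funext c
    exact (av_const _).symm
  rw [h1, ← av_equiv hJ.toPerm, av_prod]
  rfl

theorem RepS_first [Nonempty C] [∀ v, Nonempty (Ω v)] (col : A → C) (z z' : ∀ v, Ω v)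
    (hz : ∀ v, z v ≠ z' v) (f : (∀ v, Ω v) → ZMod M) (β : (∀ v, Ω v) → ℂ) (hβ : ∀ c, ‖β c‖ ≤ 1)
    (hβb : ∀ (c : ∀ v, Ω v) (b : C → A → Bool), β (mixD col z z' c b) = β c)
    (BB : (C → A → ℤ) → ZMod M)
    (hcube : ∀ (c : ∀ v, Ω v) (b b' : C → A → Bool),
      (∑ I : Finset C, (-1 : ℤ) ^ I.card • f (mixD col z z' c (I.piecewise b' b))) =
        BB (dltD z z' c b b')) :
    ‖av fun c => β c * ee (f c)‖ ^ 2 ^ Fintype.card C ≤
      (av fun c : ∀ v, Ω v => av fun b : C → A → Bool => av fun b' : C → A → Bool =>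
        ee (BB (dltD z z' c b b'))).re := by
  have h1 : (av fun c => β c * ee (f c)) = av fun c : ∀ v, Ω v => β c *
      av fun b : C → A → Bool => ee (f (mixD col z z' c b)) := by
    rw [RepS_mix z z' hz]
    congr 1
    funext c
    rw [← av_mul_left]
    have h2 : (av fun b : A → Bool => β (fun v => if c v = z v ∨ c v = z' v then
        (if b v then z' v else z v) else c v) * ee (f fun v => if c v = z v ∨ c v = z' v then
        (if b v then z' v else z v) else c v)) = av fun b : C → A → Bool =>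
        β (mixD col z z' c b) * ee (f (mixD col z z' c b)) :=
      (av_diag col fun b : A → Bool => β (fun v => if c v = z v ∨ c v = z' v then
        (if b v then z' v else z v) else c v) * ee (f fun v => if c v = z v ∨ c v = z' v then
        (if b v then z' v else z v) else c v)).symm
    rw [h2]
    congr 1
    funext b
    rw [hβb]
  rw [h1]
  refine (norm_av_pow _ _).trans ?_
  refine av_re_mono fun c => ?_
  rw [Complex.ofReal_re, norm_mul, mul_pow]
  have h3 := gcs fun b : C → A → Bool => f (mixD col z z' c b)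
  have h4 : ‖β c‖ ^ 2 ^ Fintype.card C ≤ 1 := pow_le_one₀ (norm_nonneg _) (hβ c)
  refine (mul_le_of_le_one_left (by positivity) h4).trans (h3.trans (le_of_eq ?_))
  congr 2
  funext b
  congr 1
  funext b'
  rw [hcube]

theorem RepS_indep [∀ v, Nonempty (Ω v)] (col : A → C) (z z' : ∀ v, Ω v)
    (BB : (C → A → ℤ) → ZMod M) (hcol : ∀ x y : C → A → ℤ, (∀ v, x (col v) v = y (col v) v) →
      BB x = BB y) :
    (av fun c : ∀ v, Ω v => av fun b : C → A → Bool => av fun b' : C → A → Bool =>
      ee (BB (dltD z z' c b b'))) =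
    av fun w : C → ∀ v, Ω v × Bool × Bool => ee (BB fun j v =>
      if (w j v).1 = z v ∨ (w j v).1 = z' v then
        (if (w j v).2.1 then 1 else 0) - (if (w j v).2.2 then 1 else 0) else 0) := by
  let e : (C → ∀ v, Ω v) × (C → A → Bool) × (C → A → Bool) ≃ (C → ∀ v, Ω v × Bool × Bool) :=
    { toFun := fun p j v => (p.1 j v, p.2.1 j v, p.2.2 j v)
      invFun := fun w => (fun j v => (w j v).1, fun j v => (w j v).2.1, fun j v => (w j v).2.2)
      left_inv := fun _ => rfl
      right_inv := fun _ => rfl }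
  rw [← av_equiv e, av_prod]
  rw [← av_diagD col]
  congr 1
  funext κ
  rw [av_prod]
  congr 1
  funext b
  congr 1
  funext b'
  congr 1
  exact hcol _ _ fun v => rfl

end

/-! ### Replacement of the laws, colour by colour -/

section
variable {A C Ω' : Type} [Fintype A] [DecidableEq A] [Fintype C] [DecidableEq C]
  [Fintype Ω'] {M : ℕ} [NeZero M] {Ω : A → Type} [∀ v, Fintype (Ω v)]

/-- the argument of `BB`: the new law in the colours of `S`, the old law in the other colours -/
def datD (S : Finset C) (X : ∀ v, Ω v → ℤ) (X' : C → Ω' → ℤ) (w : C → ∀ v, Ω v × Ω') :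
    C → A → ℤ := fun i v => if i ∈ S then X' i (w i v).2 else X v (w i v).1

theorem RepS_inner {BB : (C → A → ℤ) → ZMod M} (hBB : MAdd univ BB) (x : C → A → ℤ) (j : C)
    (X : ∀ v, Ω v → ℤ) :
    (av fun u : ∀ v, Ω v => ee (BB (Function.update x j fun v => X v (u v)))) =
      ∏ v, av fun ω => ee (X v ω • BB (Function.update x j (Pi.single v 1))) := by
  rw [← av_pi_prodD]
  congr 1
  funext u
  rw [Rep_add hBB, Rep_ee_sum]

theorem RepS_step [∀ v, Nonempty (Ω v)] [Nonempty Ω'] {BB : (C → A → ℤ) → ZMod M}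
    (hBB : MAdd univ BB) (X : ∀ v, Ω v → ℤ) (X' : C → Ω' → ℤ) {S : Finset C} {j : C}
    (hj : j ∉ S)
    (h : ∀ (w : C → ∀ v, Ω v × Ω') (v : A), ∃ a b : ℝ, 0 ≤ a ∧ a ≤ b ∧
      (av fun ω => ee (X v ω • BB (Function.update (datD S X X' w) j (Pi.single v 1)))) = a ∧
      (av fun ω => ee (X' j ω • BB (Function.update (datD S X X' w) j (Pi.single v 1)))) = b) :
    (av fun w : C → ∀ v, Ω v × Ω' => ee (BB (datD S X X' w))).re ≤
      (av fun w : C → ∀ v, Ω v × Ω' => ee (BB (datD (insert j S) X X' w))).re := by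
  rw [av_coord j, av_coord j (fun w => ee (BB (datD (insert j S) X X' w)))]
  refine av_re_mono fun w => ?_
  have h1 : ∀ u : ∀ v, Ω v × Ω', datD S X X' (Function.update w j u) =
      Function.update (datD S X X' w) j fun v => X v (u v).1 := fun u => by
    funext i v
    by_cases hi : i = j
    · subst hi
      simp [datD, hj]
    · simp [datD, hi]
  have h2 : ∀ u : ∀ v, Ω v × Ω', datD (insert j S) X X' (Function.update w j u) =
      Function.update (datD S X X' w) j fun v => X' j (u v).2 := fun u => by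
    funext i v
    by_cases hi : i = j
    · subst hi
      simp [datD]
    · simp [datD, hi]
  simp only [h1, h2]
  rw [RepS_inner hBB (Ω := fun v => Ω v × Ω') _ j fun v ω => X v ω.1,
    RepS_inner hBB (Ω := fun v => Ω v × Ω') _ j fun v ω => X' j ω.2]
  refine Rep_prod_le fun v => ?_
  obtain ⟨a, b, ha, hab, hx, hy⟩ := h w v
  refine ⟨a, b, ha, hab, ?_, ?_⟩
  · rw [← hx]
    exact av_fst fun ω => ee (X v ω • BB (Function.update (datD S X X' w) j (Pi.single v 1)))
  · rw [← hy]
    exact av_snd fun ω => ee (X' j ω • BB (Function.update (datD S X X' w) j (Pi.single v 1)))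

theorem RepS_chain [∀ v, Nonempty (Ω v)] [Nonempty Ω'] {BB : (C → A → ℤ) → ZMod M}
    (hBB : MAdd univ BB) (X : ∀ v, Ω v → ℤ) (X' : C → Ω' → ℤ) (j0 : C)
    (h : ∀ (S : Finset C) (j : C), j ∉ S → (S = ∅ ∧ j = j0 ∨ j0 ∈ S) →
      ∀ (w : C → ∀ v, Ω v × Ω') (v : A), ∃ a b : ℝ, 0 ≤ a ∧ a ≤ b ∧
      (av fun ω => ee (X v ω • BB (Function.update (datD S X X' w) j (Pi.single v 1)))) = a ∧
      (av fun ω => ee (X' j ω • BB (Function.update (datD S X X' w) j (Pi.single v 1)))) = b) :
    (av fun w : C → ∀ v, Ω v × Ω' => ee (BB (datD ∅ X X' w))).re ≤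
      (av fun w : C → ∀ v, Ω v × Ω' => ee (BB (datD univ X X' w))).re := by
  have h1 : ∀ S : Finset C, j0 ∉ S →
      (av fun w : C → ∀ v, Ω v × Ω' => ee (BB (datD ∅ X X' w))).re ≤
      (av fun w : C → ∀ v, Ω v × Ω' => ee (BB (datD (insert j0 S) X X' w))).re := by
    intro S
    induction S using Finset.induction_on with
    | empty =>
      intro _
      exact RepS_step hBB X X' (notMem_empty j0)
        (h ∅ j0 (notMem_empty j0) (Or.inl ⟨rfl, rfl⟩))
    | insert j S hj ih =>
      intro hj0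
      rw [mem_insert, not_or] at hj0
      refine (ih hj0.2).trans ?_
      rw [Finset.insert_comm]
      have h2 : j ∉ insert j0 S := by
        rw [mem_insert, not_or]
        exact ⟨fun h => hj0.1 h.symm, hj⟩
      exact RepS_step hBB X X' h2 (h _ j h2 (Or.inr (mem_insert_self _ _)))
  have h3 := h1 (univ.erase j0) (notMem_erase _ _)
  rwa [insert_erase (mem_univ j0)] at h3

end

/-! ### The factors -/

theorem RepS_old {M : ℕ} [NeZero M] {Ω : Type} [Fintype Ω] [DecidableEq Ω] {z z' : Ω}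
    (hz : z ≠ z') (y : ZMod M) :
    (av fun ω : Ω × Bool × Bool => ee ((if ω.1 = z ∨ ω.1 = z' then
      (if ω.2.1 then 1 else 0) - (if ω.2.2 then 1 else 0) else 0 : ℤ) • y)) =
      ((1 - (1 - (ee y).re) / Fintype.card Ω : ℝ) : ℂ) := by
  have hne : Nonempty Ω := ⟨z⟩
  have hQ0 : (Fintype.card Ω : ℂ) ≠ 0 := by
    have : Fintype.card Ω ≠ 0 := Fintype.card_ne_zero
    exact_mod_cast this
  have h1 : ∀ k : Ω, (av fun ω : Bool × Bool => ee ((if k = z ∨ k = z' then
      (if ω.1 then 1 else 0) - (if ω.2 then 1 else 0) else 0 : ℤ) • y)) =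
      1 - (if k = z then ((1 - (ee y).re : ℝ) : ℂ) / 2 else 0) -
        (if k = z' then ((1 - (ee y).re : ℝ) : ℂ) / 2 else 0) := by
    intro k
    have h2 : (av fun ω : Bool × Bool => ee (((if ω.1 then 1 else 0) -
        (if ω.2 then 1 else 0) : ℤ) • y)) = 1 - ((1 - (ee y).re : ℝ) : ℂ) / 2 := by
      unfold av
      rw [Fintype.sum_prod_type]
      simp only [Fintype.sum_bool, Fintype.card_prod, Fintype.card_bool]
      have h3 : ee y + ee (-y) = 2 * ((ee y).re : ℂ) := by
        rw [Gcs_ee_neg, Complex.add_conj]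
        push_cast
        ring
      simp only [if_true, sub_self, zero_smul, Rep_ee_zero, sub_zero, one_smul,
        zero_sub, neg_smul, Bool.false_eq_true, if_false]
      push_cast
      linear_combination (1 / 4 : ℂ) * h3
    by_cases hk : k = z
    · have hk' : k ≠ z' := fun h => hz (hk.symm.trans h)
      simp only [hk, hz, true_or, if_true, if_false, sub_zero]
      exact h2
    · by_cases hk' : k = z'
      · simp only [hk', hz.symm, or_true, if_true, if_false, sub_zero]
        exact h2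
      · simp only [hk, hk', or_false, if_false, zero_smul, Rep_ee_zero, sub_zero]
        exact av_const _
  rw [av_prod]
  simp only [h1]
  unfold av
  rw [sum_sub_distrib, sum_sub_distrib, sum_ite_eq', sum_ite_eq']
  simp only [mem_univ, if_true, sum_const, card_univ, nsmul_eq_mul, mul_one]
  push_cast
  field_simp
  ring

theorem RepS_factor (M Qm : ℕ) [NeZero M] (hQ : 2 ≤ Qm) : ∃ R0 : ℕ, 1 ≤ R0 ∧
    ∀ (ℓ m : ℕ), 0 < ℓ → ∀ (y : ZMod M), ℓ • m • y = 0 → ∀ (Ω : Type) [Fintype Ω]
      [DecidableEq Ω], Fintype.card Ω ≤ Qm → ∀ (z z' : Ω), z ≠ z' →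
      ∃ a b : ℝ, 0 ≤ a ∧ a ≤ b ∧
      (av fun ω : Ω × Bool × Bool => ee ((if ω.1 = z ∨ ω.1 = z' then
        (if ω.2.1 then 1 else 0) - (if ω.2.2 then 1 else 0) else 0 : ℤ) • y)) = a ∧
      (av fun ω : Fin R0 × Fin ℓ => ee (((m : ℤ) *
        (if (ω.1 : ℕ) = 0 then ((ω.2 : ℕ) : ℤ) else 0)) • y)) = b := by
  obtain ⟨c, hc, hgap⟩ := Rep_gap M
  have hQ0 : (0 : ℝ) < Qm := by
    have : 0 < Qm := by omega
    exact_mod_cast this
  obtain ⟨R0, hR0⟩ := exists_nat_ge ((Qm : ℝ) / c)
  have hR1 : 1 ≤ R0 := by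
    rcases Nat.eq_zero_or_pos R0 with h | h
    · rw [h, Nat.cast_zero] at hR0
      have : 0 < (Qm : ℝ) / c := by positivity
      linarith
    · exact h
  have hR2 : (0 : ℝ) < R0 := by exact_mod_cast hR1
  have hR3 : 1 / (R0 : ℝ) ≤ c / Qm := by
    rw [div_le_iff₀ hc] at hR0
    rw [div_le_div_iff₀ hR2 hQ0]
    linarith
  refine ⟨R0, hR1, ?_⟩
  intro ℓ m hℓ y hy Ω _ _ hcard z z' hz
  have hΩ2 : 2 ≤ Fintype.card Ω := by
    have h1 : ({z, z'} : Finset Ω).card ≤ Fintype.card Ω := card_le_univ _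
    rwa [card_pair hz] at h1
  have hΩ0 : (0 : ℝ) < Fintype.card Ω := by
    have : 0 < Fintype.card Ω := by omega
    exact_mod_cast this
  have hΩQ : (Fintype.card Ω : ℝ) ≤ Qm := by exact_mod_cast hcard
  refine ⟨1 - (1 - (ee y).re) / Fintype.card Ω,
    1 - 1 / R0 + 1 / R0 * (if m • y = 0 then 1 else 0), ?_, ?_, RepS_old hz y, ?_⟩
  · have h1 : -1 ≤ (ee y).re := by
      have := Complex.abs_re_le_norm (ee y)
      rw [Gcs_norm_ee] at this
      exact (abs_le.1 this).1
    have h2 : (2 : ℝ) ≤ Fintype.card Ω := by exact_mod_cast hΩ2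
    rw [sub_nonneg, div_le_one hΩ0]
    linarith
  · have h3 : (ee y).re ≤ 1 := by
      have := Complex.re_le_norm (ee y)
      rwa [Gcs_norm_ee] at this
    by_cases h : m • y = 0
    · rw [if_pos h]
      have h2 : 0 ≤ (1 - (ee y).re) / Fintype.card Ω := div_nonneg (by linarith) hΩ0.le
      linarith
    · rw [if_neg h]
      have hy0 : y ≠ 0 := fun h' => h (by rw [h', smul_zero])
      have h1 : c / Qm ≤ (1 - (ee y).re) / Fintype.card Ω :=
        (div_le_div_of_nonneg_left hc.le hΩ0 hΩQ).trans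
          (div_le_div_of_nonneg_right (hgap y hy0) hΩ0.le)
      linarith
  · rw [← Rep_new hℓ (by omega) hy]
    congr 1
    funext ω
    congr 1
    rw [mul_comm, mul_smul, natCast_zsmul]

/-! ### The main inequality -/

theorem prod_degS (M Qm ℓ : ℕ) [NeZero M] [NeZero ℓ] (hQ : 2 ≤ Qm) : ∃ R0 : ℕ, 1 ≤ R0 ∧
    ∀ (C A : Type) [Fintype C] [DecidableEq C] [Nonempty C] [Fintype A] [DecidableEq A]
      (Ω : A → Type) [∀ v, Fintype (Ω v)] [∀ v, DecidableEq (Ω v)]
      (_ : ∀ v, Fintype.card (Ω v) ≤ Qm) (k s m1 : ℕ) (col : A → C) (blk : A → Fin k)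
      (_ : ∀ i, (univ.filter fun v => blk v = i).card ≤ s)
      (z z' : ∀ v, Ω v) (_ : ∀ v, z v ≠ z' v) (f : (∀ v, Ω v) → ZMod M)
      (β : (∀ v, Ω v) → ℂ) (_ : ∀ c, ‖β c‖ ≤ 1)
      (_ : ∀ (c : ∀ v, Ω v) (b : C → A → Bool), β (mixD col z z' c b) = β c)
      (BB : (C → A → ℤ) → ZMod M) (_ : MAdd univ BB)
      (_ : ∀ x y : C → A → ℤ, (∀ v, x (col v) v = y (col v) v) → BB x = BB y)
      (Bb : (C → A → ZMod ℓ) → ZMod ℓ) (_ : MAdd univ Bb)
      (_ : ∀ x : C → A → ℤ, ee (m1 • BB x) = ee (Bb fun j v => (x j v : ZMod ℓ)))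
      (_ : ∀ (c : ∀ v, Ω v) (b b' : C → A → Bool),
        (∑ I : Finset C, (-1 : ℤ) ^ I.card • f (mixD col z z' c (I.piecewise b' b))) =
          BB (dltD z z' c b b'))
      (ε : ℝ) (_ : 0 ≤ ε)
      (_ : ∀ i, (av fun u : C → A → ZMod ℓ =>
        ee (Bb fun j v => if blk v = i then u j v else 0)).re ≤ ε),
      ‖av fun c => β c * ee (f c)‖ ^ 2 ^ Fintype.card C ≤ (1 - ((R0 : ℝ) ^ s)⁻¹) ^ k + ε := by
  obtain ⟨R0, hR, hfac⟩ := RepS_factor M Qm hQ
  refine ⟨R0, hR, ?_⟩
  intro C A _ _ _ _ _ Ω _ _ hΩ k s m1 col blk hs z z' hz f β hβ hβb BB hBB hcol Bb hBb hrel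
    hcube ε hε hbias
  have hℓ : 0 < ℓ := Nat.pos_of_ne_zero (NeZero.ne ℓ)
  have : ∀ v, Nonempty (Ω v) := fun v => ⟨z v⟩
  have : Nonempty (Fin R0) := ⟨⟨0, by omega⟩⟩
  have : Nonempty (Fin ℓ) := ⟨⟨0, hℓ⟩⟩
  have hrel0 : ∀ x : C → A → ℤ, ℓ • m1 • BB x = 0 := fun x => by
    apply Rep_ee_inj
    rw [Rep_ee_nsmul, hrel, ← Rep_ee_nsmul, nsmul_eq_mul, CharP.cast_eq_zero, zero_mul,
      Rep_ee_zero, Rep_ee_zero]
  have hcolb : ∀ x y : C → A → ZMod ℓ, (∀ v, x (col v) v = y (col v) v) → Bb x = Bb y := by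
    intro x y hxy
    have hcast : ∀ x : C → A → ZMod ℓ, ee (Bb x) = ee (m1 • BB fun j v => ((x j v).val : ℤ)) := by
      intro x
      rw [hrel]
      congr 2
      funext j v
      simp
    apply Rep_ee_inj
    rw [hcast, hcast]
    congr 2
    refine hcol _ _ fun v => ?_
    rw [hxy v]
  refine (RepS_first col z z' hz f β hβ hβb BB hcube).trans ?_
  rw [RepS_indep col z z' BB hcol]
  obtain ⟨j0⟩ := ‹Nonempty C›
  -- the laws
  obtain ⟨X, hX⟩ : ∃ X : ∀ v, Ω v × Bool × Bool → ℤ, X = fun v ω =>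
      if ω.1 = z v ∨ ω.1 = z' v then (if ω.2.1 then 1 else 0) - (if ω.2.2 then 1 else 0) else 0 :=
    ⟨_, rfl⟩
  obtain ⟨X', hX'⟩ : ∃ X' : C → Fin R0 × Fin ℓ → ℤ, X' = fun i ω =>
      (((if i = j0 then m1 else 1 : ℕ)) : ℤ) * (if (ω.1 : ℕ) = 0 then ((ω.2 : ℕ) : ℤ) else 0) :=
    ⟨_, rfl⟩
  have hstart : (av fun w : C → ∀ v, Ω v × Bool × Bool => ee (BB fun j v =>
      if (w j v).1 = z v ∨ (w j v).1 = z' v then
        (if (w j v).2.1 then 1 else 0) - (if (w j v).2.2 then 1 else 0) else 0)) =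
      av fun w : C → ∀ v, (Ω v × Bool × Bool) × (Fin R0 × Fin ℓ) =>
        ee (BB (datD ∅ X X' w)) := by
    let e : (C → ∀ v, Ω v × Bool × Bool) × (C → A → Fin R0 × Fin ℓ) ≃
        (C → ∀ v, (Ω v × Bool × Bool) × (Fin R0 × Fin ℓ)) :=
      { toFun := fun p j v => (p.1 j v, p.2 j v)
        invFun := fun w => (fun j v => (w j v).1, fun j v => (w j v).2)
        left_inv := fun _ => rfl
        right_inv := fun _ => rfl }
    rw [← av_equiv e]
    have h1 : ∀ p : (C → ∀ v, Ω v × Bool × Bool) × (C → A → Fin R0 × Fin ℓ),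
        datD ∅ X X' (e p) = fun j v => X v (p.1 j v) := fun p => by
      funext j v
      simp [datD, e]
    simp only [h1]
    rw [av_fst fun w : C → ∀ v, Ω v × Bool × Bool => ee (BB fun j v => X v (w j v)), hX]
  rw [hstart]
  have hchain := RepS_chain hBB X X' j0 fun S j hj hS w v => by
    have h1 : ∀ y : ZMod M, ℓ • (if j = j0 then m1 else 1) • y = 0 → ∃ a b : ℝ, 0 ≤ a ∧ a ≤ b ∧
        (av fun ω => ee (X v ω • y)) = a ∧ (av fun ω => ee (X' j ω • y)) = b := fun y hy => by
      have := hfac ℓ (if j = j0 then m1 else 1) hℓ y hy (Ω v) (hΩ v) (z v) (z' v) (hz v)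
      rw [hX, hX']
      exact this
    refine h1 _ ?_
    by_cases hjj : j = j0
    · rw [if_pos hjj]
      exact hrel0 _
    · rw [if_neg hjj, one_smul]
      have hj0 : j0 ∈ S := by
        rcases hS with h | h
        · exact absurd h.2 hjj
        · exact h
      have h2 : Function.update (datD S X X' w) j (Pi.single v 1) =
          Function.update (Function.update (datD S X X' w) j (Pi.single v 1)) j0
            ((m1 : ℤ) • fun v => if ((w j0 v).2.1 : ℕ) = 0 then (((w j0 v).2.2 : ℕ) : ℤ) else 0) := by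
        funext i u
        by_cases hi : i = j0
        · subst hi
          rw [Function.update_self, Function.update_of_ne (Ne.symm hjj)]
          simp [datD, hj0, hX']
        · rw [Function.update_of_ne hi]
      rw [h2, MAdd_zsmul hBB (mem_univ j0), natCast_zsmul]
      exact hrel0 _
  refine hchain.trans ?_
  have hend : ∀ w : C → ∀ v, (Ω v × Bool × Bool) × (Fin R0 × Fin ℓ),
      ee (BB (datD univ X X' w)) = ee (Bb fun j v =>
        if ((w j v).2.1 : ℕ) = 0 then (((w j v).2.2 : ℕ) : ZMod ℓ) else 0) := by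
    intro w
    have h2 : datD univ X X' w = Function.update
        (fun i v => if ((w i v).2.1 : ℕ) = 0 then (((w i v).2.2 : ℕ) : ℤ) else 0) j0
          ((m1 : ℤ) • fun v => if ((w j0 v).2.1 : ℕ) = 0 then (((w j0 v).2.2 : ℕ) : ℤ) else 0) := by
      funext i u
      by_cases hi : i = j0
      · subst hi
        rw [Function.update_self]
        simp [datD, hX']
      · rw [Function.update_of_ne hi]
        simp [datD, hX', hi]
    rw [h2, MAdd_zsmul hBB (mem_univ j0), natCast_zsmul, Function.update_eq_self, hrel]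
    congr 2
    funext j v
    by_cases h : ((w j v).2.1 : ℕ) = 0 <;> simp [h]
  simp only [hend]
  let e2 : (C → ∀ v, Ω v × Bool × Bool) × ((C → A → Fin R0) × (C → A → Fin ℓ)) ≃
      (C → ∀ v, (Ω v × Bool × Bool) × (Fin R0 × Fin ℓ)) :=
    { toFun := fun p j v => (p.1 j v, p.2.1 j v, p.2.2 j v)
      invFun := fun w => (fun j v => (w j v).1, fun j v => (w j v).2.1, fun j v => (w j v).2.2)
      left_inv := fun _ => rfl
      right_inv := fun _ => rfl }
  have hre : (av fun w : C → ∀ v, (Ω v × Bool × Bool) × (Fin R0 × Fin ℓ) => ee (Bb fun j v =>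
        if ((w j v).2.1 : ℕ) = 0 then (((w j v).2.2 : ℕ) : ZMod ℓ) else 0)) =
      av fun r : C → A → Fin R0 => av fun u : C → A → ZMod ℓ => ee (Bb fun j v =>
        if (r j v : ℕ) = 0 then u j v else 0) := by
    rw [← av_equiv e2]
    refine (av_snd (Ω := C → ∀ v, Ω v × Bool × Bool)
      fun p2 : (C → A → Fin R0) × (C → A → Fin ℓ) => ee (Bb fun j v =>
        if (p2.1 j v : ℕ) = 0 then ((p2.2 j v : ℕ) : ZMod ℓ) else 0)).trans ?_
    rw [av_prod]
    congr 1
    funext r
    have hbij : Function.Bijective fun u : Fin ℓ => ((u : ℕ) : ZMod ℓ) := by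
      rw [Fintype.bijective_iff_injective_and_card]
      refine ⟨fun u v h => ?_, by rw [Fintype.card_fin, ZMod.card]⟩
      have h' := congrArg ZMod.val h
      rw [ZMod.val_natCast_of_lt u.2, ZMod.val_natCast_of_lt v.2] at h'
      exact Fin.ext h'
    let e3 : (C → A → Fin ℓ) ≃ (C → A → ZMod ℓ) :=
      Equiv.piCongrRight fun _ => Equiv.piCongrRight fun _ => Equiv.ofBijective _ hbij
    rw [← av_equiv e3]
    rfl
  rw [hre]
  have hA : (univ : Finset C).Nonempty := ⟨j0, mem_univ j0⟩
  have hone : ∀ r : C → A → Fin R0, (av fun u : C → A → ZMod ℓ => ee (Bb fun j v =>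
      if (r j v : ℕ) = 0 then u j v else 0)).re ≤
      ((∏ i : Fin k, (1 - ∏ v ∈ univ.filter fun v => blk v = i,
        if (r (col v) v : ℕ) = 0 then (1 : ℂ) else 0)) + (ε : ℂ)).re := by
    intro r
    rw [Complex.add_re, Complex.ofReal_re]
    by_cases h : ∃ i, ∀ v, blk v = i → (r (col v) v : ℕ) = 0
    · obtain ⟨i, hi⟩ := h
      have h1 : (∏ i : Fin k, (1 - ∏ v ∈ univ.filter fun v => blk v = i,
          if (r (col v) v : ℕ) = 0 then (1 : ℂ) else 0)) = 0 := by
        refine prod_eq_zero (mem_univ i) ?_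
        rw [prod_eq_one, sub_self]
        intro v hv
        rw [if_pos (hi v (mem_filter.1 hv).2)]
      rw [h1, Complex.zero_re, zero_add]
      refine le_trans ?_ (hbias i)
      have h2 := madd_restrict hA (φ := fun u : C → A → ZMod ℓ => Bb fun j =>
        Rep_cut (fun v => (r j v : ℕ) = 0) (u j))
        (hBb.comp fun j => Rep_cut fun v => (r j v : ℕ) = 0)
        fun _ => Rep_cut fun v => blk v = i
      refine h2.trans (le_of_eq ?_)
      congr 2
      funext u
      congr 1
      refine hcolb _ _ fun v => ?_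
      change (if (r (col v) v : ℕ) = 0 then (if blk v = i then u (col v) v else 0) else 0) =
        if blk v = i then u (col v) v else 0
      by_cases hv : blk v = i
      · rw [if_pos (hi v hv)]
      · simp [hv]
    · push Not at h
      have h1 : (∏ i : Fin k, (1 - ∏ v ∈ univ.filter fun v => blk v = i,
          if (r (col v) v : ℕ) = 0 then (1 : ℂ) else 0)) = 1 := by
        refine prod_eq_one fun i _ => ?_
        obtain ⟨v, hv, hrv⟩ := h i
        rw [prod_eq_zero (mem_filter.2 ⟨mem_univ v, hv⟩) (if_neg hrv), sub_zero]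
      rw [h1, Complex.one_re]
      have h3 : ‖av fun u : C → A → ZMod ℓ => ee (Bb fun j v =>
          if (r j v : ℕ) = 0 then u j v else 0)‖ ≤ 1 :=
        norm_av_le_of zero_le_one fun u => by rw [Gcs_norm_ee]
      have h4 := Complex.re_le_norm (av fun u : C → A → ZMod ℓ => ee (Bb fun j v =>
          if (r j v : ℕ) = 0 then u j v else 0))
      linarith
  refine (av_re_mono hone).trans ?_
  rw [av_add, Complex.add_re, av_const, Complex.ofReal_re]
  have h5 := Rep_blocks hR blk hs
  rw [← av_diag col] at h5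
  linarith

end Pool.Agent.Lib.MP_3e612f_nt.DI
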